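import Mathlib

set_option maxHeartbeats 400000

namespace Pool.Agent.Results.MP_7b51c2_an.Fails
open Filter Topology Set

/-- Lin's norm; the coordinate `x n` here is the coordinate `x_{n+1}` of the problem. -/
noncomputable def linNorm (x : ℕ → ℝ) : ℝ :=
  ⨆ k : ℕ, ((8 : ℝ) ^ (k + 1) / (1 + 8 ^ (k + 1))) * ∑' n, |x (n + k)|

/-- The closed unit ball of `ℓ₁` in Lin's norm. -/
def linBall : Set (ℕ → ℝ) := {x | Summable (fun n => |x n|) ∧ linNorm x ≤ 1}

noncomputable def N (x : ℕ → ℝ) : ℝ := ∑' n, |x n|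

lemma N_nonneg (x : ℕ → ℝ) : 0 ≤ N x := tsum_nonneg fun _ => abs_nonneg _

lemma term_le {x : ℕ → ℝ} (hx : Summable fun n => |x n|) (k : ℕ) :
    ((8 : ℝ) ^ (k + 1) / (1 + 8 ^ (k + 1))) * ∑' n, |x (n + k)| ≤ N x := by
  have h1 := hx.sum_add_tsum_nat_add k
  have h2 : 0 ≤ ∑ i ∈ Finset.range k, |x i| := Finset.sum_nonneg fun _ _ => abs_nonneg _
  have h3 : 0 ≤ ∑' n, |x (n + k)| := tsum_nonneg fun _ => abs_nonneg _
  have h4 : (8 : ℝ) ^ (k + 1) / (1 + 8 ^ (k + 1)) ≤ 1 := by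
    rw [div_le_one (by positivity)]; linarith
  unfold N
  nlinarith

lemma lin_le {x : ℕ → ℝ} (hx : Summable fun n => |x n|) : linNorm x ≤ N x :=
  ciSup_le (term_le hx)

lemma le_lin {x : ℕ → ℝ} (hx : Summable fun n => |x n|) : N x ≤ 9 / 8 * linNorm x := by
  have := le_ciSup (f := fun k : ℕ => ((8 : ℝ) ^ (k + 1) / (1 + 8 ^ (k + 1))) * ∑' n, |x (n + k)|)
    ⟨N x, by rintro _ ⟨k, rfl⟩; exact term_le hx k⟩ 0
  unfold linNorm N
  norm_num at this ⊢
  linarith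

lemma sm_sub {x y : ℕ → ℝ} (hx : Summable fun n => |x n|) (hy : Summable fun n => |y n|) :
    Summable fun n => |(x - y) n| :=
  Summable.of_nonneg_of_le (fun _ => abs_nonneg _) (fun n => abs_sub (x n) (y n)) (hx.add hy)

lemma N_lip {x y : ℕ → ℝ} (hx : Summable fun n => |x n|) (hy : Summable fun n => |y n|) :
    |N x - N y| ≤ N (x - y) := by
  unfold N
  rw [← hx.tsum_sub hy]
  have h1 : ∀ n, ‖|x n| - |y n|‖ ≤ |(x - y) n| := fun n => abs_abs_sub_abs_le_abs_sub _ _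
  exact tsum_of_norm_bounded (sm_sub hx hy).hasSum h1

/-- the simplex -/
def D (a : ℕ → ℝ) : Prop := (∀ n, 0 ≤ a n) ∧ HasSum a 1

lemma D.sm {a : ℕ → ℝ} (h : D a) : Summable fun n => |a n| := h.2.summable.abs

lemma D.N {a : ℕ → ℝ} (h : D a) : N a = 1 := by
  unfold Fails.N
  simp only [abs_of_nonneg (h.1 _)]
  exact h.2.tsum_eq

noncomputable def r (x : ℕ → ℝ) (n : ℕ) : ℝ :=
  (max (N x) 1)⁻¹ * |x n| + if n = 0 then max (1 - N x) 0 else 0

lemma r_D {x : ℕ → ℝ} (hx : Summable fun n => |x n|) : D (r x) := by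
  have m0 : 0 < max (N x) 1 := lt_max_of_lt_right one_pos
  refine ⟨fun n => add_nonneg (by positivity) (by split_ifs <;> simp), ?_⟩
  have := (hx.hasSum.mul_left (max (N x) 1)⁻¹).add (hasSum_ite_eq 0 (max (1 - N x) 0))
  have e : (max (N x) 1)⁻¹ * N x + max (1 - N x) 0 = 1 := by
    rcases le_total (N x) 1 with h | h
    · rw [max_eq_right h, max_eq_left (by linarith)]; simp
    · rw [max_eq_left h, max_eq_right (by linarith), inv_mul_cancel₀ (by linarith)]; simp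
  rw [← e]
  exact this

lemma r_id {a : ℕ → ℝ} (h : D a) : r a = a := by
  funext n
  unfold r
  rw [h.N, abs_of_nonneg (h.1 n)]; simp

lemma r_lip {x y : ℕ → ℝ} (hx : Summable fun n => |x n|) (hy : Summable fun n => |y n|) :
    N (r x - r y) ≤ 3 * N (x - y) := by
  have hl := N_lip hx hy
  set m := max (N x) 1
  set m' := max (N y) 1
  have m1 : 1 ≤ m := le_max_right _ _
  have m1' : 1 ≤ m' := le_max_right _ _
  have h1 : |m - m'| ≤ N (x - y) := (abs_max_sub_max_le_abs _ _ _).trans hl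
  have h2 : |max (1 - N x) 0 - max (1 - N y) 0| ≤ N (x - y) :=
    (abs_max_sub_max_le_abs _ _ _).trans (by rw [sub_sub_sub_cancel_left, abs_sub_comm]; exact hl)
  have hs := (((sm_sub hx hy).hasSum.add (hy.hasSum.mul_left (N (x - y) * m'⁻¹))).add
    (hasSum_ite_eq 0 (N (x - y))))
  have hb : ∀ n, |(r x - r y) n| ≤ |(x - y) n| + N (x - y) * m'⁻¹ * |y n| +
      if n = 0 then N (x - y) else 0 := by
    intro n
    have e : m⁻¹ * |x n| - m'⁻¹ * |y n| =
        m⁻¹ * (|x n| - |y n|) + m⁻¹ * ((m' - m) * m'⁻¹ * |y n|) := by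
      field_simp; ring
    have i1 : m⁻¹ ≤ 1 := inv_le_one_of_one_le₀ m1
    have i0 : 0 < m⁻¹ := by positivity
    have a1 : |m⁻¹ * (|x n| - |y n|)| ≤ |(x - y) n| := by
      rw [abs_mul, abs_of_pos i0]
      exact (mul_le_of_le_one_left (abs_nonneg _) i1).trans (abs_abs_sub_abs_le_abs_sub _ _)
    have a2 : |m⁻¹ * ((m' - m) * m'⁻¹ * |y n|)| ≤ N (x - y) * m'⁻¹ * |y n| := by
      rw [abs_mul, abs_of_pos i0]
      refine (mul_le_of_le_one_left (abs_nonneg _) i1).trans ?_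
      rw [abs_mul, abs_mul, abs_abs, abs_sub_comm, abs_of_pos (by positivity : 0 < m'⁻¹)]
      gcongr
    have a3 := abs_add_le (m⁻¹ * (|x n| - |y n|)) (m⁻¹ * ((m' - m) * m'⁻¹ * |y n|))
    rw [← e] at a3
    have e2 : (r x - r y) n = (m⁻¹ * |x n| - m'⁻¹ * |y n|) +
        if n = 0 then max (1 - N x) 0 - max (1 - N y) 0 else 0 := by
      simp only [Pi.sub_apply, r]; split_ifs <;> ring
    rw [e2]
    refine (abs_add_le _ _).trans (add_le_add (by linarith) ?_)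
    split_ifs
    · exact h2
    · simp
  have := hasSum_le hb (sm_sub (r_D hx).sm (r_D hy).sm).hasSum hs
  have h3 : m'⁻¹ * N y ≤ 1 := by
    rw [inv_mul_le_iff₀ (by linarith), mul_one]; exact le_max_left _ _
  have h4 := mul_le_mul_of_nonneg_left h3 (N_nonneg (x - y))
  unfold N at *
  nlinarith

/-- the mass that moves one step to the right -/
noncomputable def mv (a : ℕ → ℝ) (n : ℕ) : ℝ := (1 / 2 : ℝ) ^ n * a n
def sh (b : ℕ → ℝ) : ℕ → ℝ
  | 0 => 0
  | n + 1 => b n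
noncomputable def U (a : ℕ → ℝ) (n : ℕ) : ℝ := a n - mv a n + sh (mv a) n

lemma sh_sum {b : ℕ → ℝ} {s : ℝ} (h : HasSum b s) : HasSum (sh b) s := by
  rw [← hasSum_nat_add_iff' 1]
  simpa [sh] using h

lemma pw (n : ℕ) : 0 < (1 / 2 : ℝ) ^ n ∧ (1 / 2 : ℝ) ^ n ≤ 1 :=
  ⟨by positivity, pow_le_one₀ (by norm_num) (by norm_num)⟩

lemma mv_abs (a : ℕ → ℝ) (n : ℕ) : |mv a n| ≤ |a n| := by
  unfold mv
  rw [abs_mul, abs_of_pos (pw n).1]
  exact mul_le_of_le_one_left (abs_nonneg _) (pw n).2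

lemma mv_sm {a : ℕ → ℝ} (h : Summable fun n => |a n|) : Summable fun n => |mv a n| :=
  Summable.of_nonneg_of_le (fun _ => abs_nonneg _) (mv_abs a) h

lemma sh_abs (b : ℕ → ℝ) (n : ℕ) : |sh b n| = sh (fun k => |b k|) n := by
  cases n <;> simp [sh]

lemma U_D {a : ℕ → ℝ} (h : D a) : D (U a) := by
  have hs := (mv_sm h.sm).of_abs.hasSum
  have hs2 := (h.2.sub hs).add (sh_sum hs)
  rw [sub_add_cancel] at hs2
  refine ⟨fun n => ?_, hs2⟩
  have a1 : mv a n ≤ a n := mul_le_of_le_one_left (h.1 n) (pw n).2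
  have a2 : 0 ≤ sh (mv a) n := by
    cases n with
    | zero => exact le_rfl
    | succ n => exact mul_nonneg (pw n).1.le (h.1 n)
  unfold U; linarith

lemma U_lip {a b : ℕ → ℝ} (ha : D a) (hb : D b) : N (U a - U b) ≤ 3 * N (a - b) := by
  have hs := sm_sub ha.sm hb.sm
  have hb' : ∀ n, |(U a - U b) n| ≤ |(a - b) n| + |(a - b) n| + sh (fun k => |(a - b) k|) n := by
    intro n
    have e : (U a - U b) n = (a - b) n - mv (a - b) n + sh (mv (a - b)) n := by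
      cases n <;> simp only [U, mv, sh, Pi.sub_apply] <;> ring
    have a1 : |sh (mv (a - b)) n| ≤ sh (fun k => |(a - b) k|) n := by
      cases n with
      | zero => simp [sh]
      | succ n => exact mv_abs _ n
    rw [e]
    refine (abs_add_le _ _).trans (add_le_add ((abs_sub _ _).trans ?_) a1)
    linarith [mv_abs (a - b) n]
  have := hasSum_le hb' (sm_sub (U_D ha).sm (U_D hb).sm).hasSum
    ((hs.hasSum.add hs.hasSum).add (sh_sum hs.hasSum))
  unfold N; linarith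

noncomputable def ψ (a : ℕ → ℝ) : ℝ := ∑' n, mv a n

lemma ψ_sum {a : ℕ → ℝ} (h : D a) : HasSum (mv a) (ψ a) := (mv_sm h.sm).of_abs.hasSum

lemma step_le {a : ℕ → ℝ} (h : D a) : N (a - U a) ≤ 2 * ψ a := by
  have hb : ∀ n, |(a - U a) n| ≤ mv a n + sh (mv a) n := by
    intro n
    have e : (a - U a) n = mv a n - sh (mv a) n := by simp only [U, Pi.sub_apply]; ring
    have a1 : 0 ≤ mv a n := mul_nonneg (pw n).1.le (h.1 n)
    have a2 : 0 ≤ sh (mv a) n := by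
      cases n with
      | zero => exact le_rfl
      | succ n => exact mul_nonneg (pw n).1.le (h.1 n)
    rw [e, abs_le]; constructor <;> linarith
  have := hasSum_le hb (sm_sub h.sm (U_D h).sm).hasSum ((ψ_sum h).add (sh_sum (ψ_sum h)))
  unfold N; linarith

lemma ψ_U {a : ℕ → ℝ} (h : D a) : ψ (U a) ≤ ψ a - ψ a ^ 2 / 2 := by
  have h2 : HasSum (mv (mv a)) (ψ (mv a)) := (mv_sm (mv_sm h.sm)).of_abs.hasSum
  have h3 : HasSum (mv (U a)) (ψ a - ψ (mv a) + 1 / 2 * ψ (mv a)) := by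
    have e : mv (U a) = fun n => mv a n - mv (mv a) n + sh (fun k => 1 / 2 * mv (mv a) k) n := by
      funext n
      cases n <;> simp only [U, mv, sh, pow_succ] <;> ring
    rw [e]
    exact ((ψ_sum h).sub h2).add (sh_sum (h2.mul_left (1 / 2)))
  have h4 : 2 * ψ a * ψ a - ψ a ^ 2 * 1 ≤ ψ (mv a) := by
    refine hasSum_le (fun n => ?_) (((ψ_sum h).mul_left (2 * ψ a)).sub (h.2.mul_left (ψ a ^ 2))) h2
    have := mul_nonneg (sq_nonneg ((1 / 2 : ℝ) ^ n - ψ a)) (h.1 n)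
    simp only [mv]; nlinarith
  have h5 := (ψ_sum (U_D h)).unique h3
  nlinarith

lemma ψ_mem {a : ℕ → ℝ} (h : D a) : 0 ≤ ψ a ∧ ψ a ≤ 1 :=
  ⟨tsum_nonneg fun n => mul_nonneg (pw n).1.le (h.1 n),
    hasSum_le (fun n => mul_le_of_le_one_left (h.1 n) (pw n).2) (ψ_sum h) h.2⟩

lemma iter {a : ℕ → ℝ} (h : D a) (n : ℕ) : D (U^[n] a) ∧ ψ (U^[n] a) ≤ 2 / ((n : ℝ) + 2) := by
  induction n with
  | zero => exact ⟨h, by simpa using (ψ_mem h).2⟩
  | succ n ih =>
    rw [Function.iterate_succ_apply']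
    refine ⟨U_D ih.1, (ψ_U ih.1).trans ?_⟩
    have h0 := ψ_mem ih.1
    have n0 : (0 : ℝ) ≤ n := Nat.cast_nonneg n
    have a1 : 2 / ((n : ℝ) + 2) ≤ 1 := by rw [div_le_one (by positivity)]; linarith
    have a2 : 2 / ((n : ℝ) + 2) - (2 / ((n : ℝ) + 2)) ^ 2 / 2 ≤ 2 / (((n + 1 : ℕ) : ℝ) + 2) := by
      push_cast
      rw [← sub_nonneg]
      have : 2 / ((n : ℝ) + 1 + 2) - (2 / ((n : ℝ) + 2) - (2 / ((n : ℝ) + 2)) ^ 2 / 2) =
          2 / (((n : ℝ) + 3) * ((n : ℝ) + 2) ^ 2) := by field_simp; ring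
      rw [this]; positivity
    nlinarith [ih.2, h0.1, h0.2]

lemma no_fix {a : ℕ → ℝ} (h : D a) : U a ≠ a := by
  intro e
  have a1 := ψ_U h
  rw [e] at a1
  have a2 : ψ a = 0 := by nlinarith
  have a3 := ψ_sum h
  rw [a2] at a3
  have a4 := (hasSum_zero_iff_of_nonneg fun n => mul_nonneg (pw n).1.le (h.1 n)).1 a3
  have a5 : a = 0 := by
    funext n
    have := congrFun a4 n
    simpa [mv] using this
  have := h.2
  rw [a5] at this
  exact zero_ne_one (hasSum_zero.unique this)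

end Pool.Agent.Results.MP_7b51c2_an.Fails

open Pool.Agent.Results.MP_7b51c2_an.Fails in
theorem Pool.Agent.Results.MP_7b51c2_an.Fails.result :
    ∃ T : (ℕ → ℝ) → (ℕ → ℝ), Set.MapsTo T linBall linBall ∧
      (∃ L : ℝ, ∀ x ∈ linBall, ∀ y ∈ linBall, linNorm (T x - T y) ≤ L * linNorm (x - y)) ∧
      (∀ ε > 0, ∃ n₀ : ℕ, ∀ n ≥ n₀, ∀ x ∈ linBall, linNorm (T^[n] x - T^[n + 1] x) ≤ ε) ∧
      ∀ x ∈ linBall, T x ≠ x := by
  have it : ∀ x ∈ linBall, ∀ n, (fun x => U (r x))^[n + 1] x = U^[n + 1] (r x) := by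
    intro x hx n
    induction n with
    | zero => rfl
    | succ n ih =>
      rw [Function.iterate_succ_apply', ih, r_id (iter (r_D hx.1) _).1,
        Function.iterate_succ_apply' U (n + 1)]
  refine ⟨fun x => U (r x), fun x hx => ?_, ⟨81 / 8, fun x hx y hy => ?_⟩, fun ε hε => ?_,
    fun x hx e => ?_⟩
  · have := U_D (r_D hx.1)
    exact ⟨this.sm, (lin_le this.sm).trans this.N.le⟩
  · have a1 := lin_le (sm_sub (U_D (r_D hx.1)).sm (U_D (r_D hy.1)).sm)
    have a2 := U_lip (r_D hx.1) (r_D hy.1)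
    have a3 := r_lip hx.1 hy.1
    have a4 := le_lin (sm_sub hx.1 hy.1)
    linarith
  · obtain ⟨m, hm⟩ := exists_nat_gt (4 / ε)
    refine ⟨m + 1, fun n hn x hx => ?_⟩
    obtain ⟨k, rfl⟩ := Nat.exists_eq_add_of_le' (le_trans (Nat.le_add_left 1 m) hn)
    rw [it x hx, it x hx, Function.iterate_succ_apply' U (k + 1)]
    have h := iter (r_D hx.1) (k + 1)
    refine (lin_le (sm_sub h.1.sm (U_D h.1).sm)).trans ((step_le h.1).trans ?_)
    have a1 : (m : ℝ) ≤ k := by exact_mod_cast (by omega : m ≤ k)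
    have a2 : 2 / (((k + 1 : ℕ) : ℝ) + 2) ≤ ε / 2 := by
      rw [div_lt_iff₀ hε] at hm
      rw [div_le_iff₀ (by positivity)]
      push_cast
      nlinarith
    linarith [h.2]
  · have h := U_D (r_D hx.1)
    have e' : U (r x) = x := e
    rw [e'] at h
    rw [r_id h] at e'
    exact no_fix h e'
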